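import Mathlib
import Pool.Agent.Q277.Ram154Five

/-!
# Sign and integrality of the normalised `(154k+15)` sums with ratio `-32768`
-/

namespace Pool.Agent.Results.MP_1a3e71_nt.Integrality

open Finset Q277.Ram154 Q277.FacTools Q277.RamTwo Q266.PInt Q266.FacDvd

/-- the numbers `c_j` of the problem -/
def c (j : ℕ) : ℚ := ((6 * j).factorial : ℚ) / (((3 * j).factorial : ℚ) * (j.factorial : ℚ) ^ 3)

/-- the sums `S_n` of the problem -/
def S (n : ℕ) : ℚ := ∑ j ∈ range n, (154 * (j : ℚ) + 15) * c j * (-32768) ^ (n - 1 - j)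

/-- the rational numbers `a_n` of the problem -/
def a (n : ℕ) : ℚ := S n / (10 * (n : ℚ) * (2 * n + 1) * ((2 * n).choose n : ℚ))

theorem S_succ (n : ℕ) : S (n + 1) = (-32768) * S n + (154 * (n : ℚ) + 15) * c n := by
  unfold S
  rw [sum_range_succ, mul_sum, show n + 1 - 1 - n = 0 by omega, pow_zero, mul_one]
  congr 1
  refine sum_congr rfl fun k hk => ?_
  have := mem_range.1 hk
  rw [show n + 1 - 1 - k = (n - 1 - k) + 1 by omega, pow_succ]
  ring

theorem S_eq (n : ℕ) : S n = ∑ k ∈ range n, G n k := by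
  rw [sum_G]
  refine sum_congr rfl fun k _ => ?_
  rw [F_zero]
  unfold c
  ring

theorem a_eq (n : ℕ) (hn : 1 ≤ n) : 40 * a n = -∑ k ∈ range n, 64 ^ k * V n k := by
  unfold a
  rw [S_eq, sum_div, mul_sum, ← sum_neg_distrib]
  refine sum_congr rfl fun k _ => ?_
  unfold G V
  rw [choose_two, f1 (2 * n)]
  have hnn : (n : ℚ) ≠ 0 := by exact_mod_cast (by omega : n ≠ 0)
  have b1 : 2 * (n : ℚ) + 1 ≠ 0 := by positivity
  have a1 := fne n
  have a2 := fne (2 * n)
  have a3 := fne (3 * n)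
  push_cast
  field_simp
  ring

theorem c_eq (k : ℕ) : c k
    = ((2 * k).choose k : ℚ) * (((3 * k).choose k * (2 * (3 * k)).choose (3 * k) : ℕ) : ℚ) := by
  unfold c
  push_cast
  rw [choose_two, choose_two, choose_three, show 2 * (3 * k) = 6 * k by ring]
  have a1 := fne k
  have a2 := fne (2 * k)
  have a3 := fne (3 * k)
  field_simp

theorem four_dvd (m : ℕ) (hm : 1 ≤ m) : 4 ∣ (3 * m).choose m * (2 * (3 * m)).choose (3 * m) := by
  have h1 := Nat.choose_mul_factorial_mul_factorial (n := 3 * m) (k := m) (by omega)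
  have h2 := Nat.choose_mul_factorial_mul_factorial (n := 2 * (3 * m)) (k := 3 * m) (by omega)
  rw [show 3 * m - m = 2 * m by omega] at h1
  rw [show 2 * (3 * m) - 3 * m = 3 * m by omega] at h2
  have h3 : (3 * m).choose m * (2 * (3 * m)).choose (3 * m) *
      (m.factorial * (2 * m).factorial * (3 * m).factorial) = (2 * (3 * m)).factorial := by
    rw [← h2]
    calc _ = (2 * (3 * m)).choose (3 * m) * (3 * m).factorial *
        ((3 * m).choose m * m.factorial * (2 * m).factorial) := by ring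
      _ = _ := by rw [h1]
  have hX : (3 * m).choose m * (2 * (3 * m)).choose (3 * m) ≠ 0 :=
    mul_ne_zero (Nat.choose_pos (by omega)).ne' (Nat.choose_pos (by omega)).ne'
  have fn : ∀ m : ℕ, m.factorial ≠ 0 := Nat.factorial_ne_zero
  generalize (3 * m).choose m * (2 * (3 * m)).choose (3 * m) = X at *
  have h4 := congrArg (fun z => z.factorization 2) h3
  rw [Nat.factorization_mul hX (mul_ne_zero (mul_ne_zero (fn _) (fn _)) (fn _)),
    Nat.factorization_mul (mul_ne_zero (fn _) (fn _)) (fn _),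
    Nat.factorization_mul (fn _) (fn _)] at h4
  simp only [Finsupp.add_apply] at h4
  have k1 : (2 * m).factorial.factorization 2 = v m + m := v_double m
  have k2 : (2 * (3 * m)).factorial.factorization 2 = v (3 * m) + 3 * m := v_double (3 * m)
  rw [k1, k2] at h4
  change X.factorization 2 + (v m + (v m + m) + v (3 * m)) = _ at h4
  have h5 := v_lt m (by omega)
  have h6 : 2 ≤ X.factorization 2 := by omega
  exact (Nat.prime_two.pow_dvd_iff_le_factorization hX).2 h6

theorem a_two (m : ℕ) (hm : 1 ≤ m) : PI 2 (a (m + 1)) := by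
  have hp := Nat.prime_two
  obtain ⟨u, hu⟩ := four_dvd m hm
  have h := sum_PI 4 (by norm_num) (-4096) (fun k => (154 * k + 15) * ((3 * k).choose k *
    (2 * (3 * k)).choose (3 * k))) m ⟨(154 * m + 15) * u, by
      show (154 * m + 15) * ((3 * m).choose m * (2 * (3 * m)).choose (3 * m)) = _
      rw [hu]; ring⟩
  have e : a (m + 1) = ((∑ k ∈ range (m + 1), ((2 * (4 : ℕ) * (-4096) : ℤ) : ℚ) ^ (m - k) *
      (((2 * k).choose k : ℚ) * (((154 * k + 15) * ((3 * k).choose k *
        (2 * (3 * k)).choose (3 * k)) : ℕ) : ℚ))) /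
      ((4 : ℕ) * ((2 * m).choose m : ℚ))) * (1 / (2 * (m : ℚ) + 1)) *
        (1 / (2 * ((m + 1 : ℕ) : ℚ) + 1)) * (1 / ((5 : ℕ) : ℚ)) := by
    have hs : (∑ k ∈ range (m + 1), ((2 * (4 : ℕ) * (-4096) : ℤ) : ℚ) ^ (m - k) *
        (((2 * k).choose k : ℚ) * (((154 * k + 15) * ((3 * k).choose k *
        (2 * (3 * k)).choose (3 * k)) : ℕ) : ℚ))) = S (m + 1) := by
      unfold S
      refine sum_congr rfl fun k _ => ?_
      rw [show m + 1 - 1 - k = m - k by omega, c_eq]
      push_cast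
      ring
    rw [hs]
    unfold a
    generalize S (m + 1) = x
    have h2 := cstep m
    have c1 := cne m
    have c2 := cne (m + 1)
    generalize ((2 * (m + 1)).choose (m + 1) : ℚ) = y at *
    generalize ((2 * m).choose m : ℚ) = z at *
    push_cast
    have b1 : (m : ℚ) + 1 ≠ 0 := by positivity
    have b2 : 2 * (m : ℚ) + 1 ≠ 0 := by positivity
    have b3 : 2 * ((m : ℚ) + 1) + 1 ≠ 0 := by positivity
    have hy : y = 2 * (2 * m + 1) * z / (m + 1) := by
      rw [eq_div_iff b1]; linear_combination h2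
    rw [hy]
    field_simp
    ring
  rw [e]
  exact ((h.mul hp (odd_inv m)).mul hp (odd_inv (m + 1))).mul hp (PI.inv (by norm_num))

theorem a_rec (n e : ℕ) (hn : 1 ≤ n) (he : ((3 * n).factorial * n.factorial *
      (2 * n + 1).factorial) * e = (6 * n).factorial) :
    2 * (2 * (n : ℚ) + 3) * (40 * a (n + 1)) = -32768 * n * (40 * a n) + 4 * (154 * n + 15) * e := by
  have he' : (((3 * n).factorial : ℚ) * (n.factorial : ℚ) * ((2 * n + 1).factorial : ℚ)) * (e : ℚ)
      = ((6 * n).factorial : ℚ) := by exact_mod_cast he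
  have hnn : (n : ℚ) ≠ 0 := by exact_mod_cast (by omega : n ≠ 0)
  unfold a
  rw [S_succ]
  unfold c
  rw [← he', f1 (2 * n)]
  have h2 := cstep n
  have c0 := choose_two n
  have a1 := fne n
  have a2 := fne (2 * n)
  have a3 := fne (3 * n)
  have c1 := cne n
  have b1 : (n : ℚ) + 1 ≠ 0 := by positivity
  have b2 : 2 * (n : ℚ) + 1 ≠ 0 := by positivity
  have b3 : 2 * ((n : ℚ) + 1) + 1 ≠ 0 := by positivity
  have b4 : 2 * (n : ℚ) + 3 ≠ 0 := by positivity
  have hf : ((2 * n).factorial : ℚ) = ((2 * n).choose n : ℚ) * (n.factorial : ℚ) ^ 2 := by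
    rw [c0]; field_simp
  have hy : ((2 * (n + 1)).choose (n + 1) : ℚ) = 2 * (2 * n + 1) * ((2 * n).choose n : ℚ) / (n + 1) := by
    rw [eq_div_iff b1]; linear_combination h2
  rw [hy]
  push_cast
  rw [hf]
  rw [show 2 * ((n : ℚ) + 1) + 1 = 2 * n + 3 by ring]
  generalize ((2 * n).choose n : ℚ) = y at *
  generalize S n = x at *
  field_simp
  ring

/-- the alternating sum is positive -/
theorem sum_pos (n : ℕ) : 0 < ∑ k ∈ range (n + 1), (32768 : ℚ) ^ (n - k) *
    ((-1) ^ k * ((154 * (k : ℚ) + 15) * c k)) := by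
  refine alt_pos (fun k => (154 * (k : ℚ) + 15) * c k)
    (fun n => ∑ k ∈ range n, (32768 : ℚ) ^ (n - 1 - k) *
    ((-1) ^ k * ((154 * (k : ℚ) + 15) * c k))) 32768
    (by norm_num) (fun k => ?_) (fun k => ?_) (by simp) (fun n => ?_) n
  · unfold c; positivity
  · unfold c
    rw [show 6 * (k + 1) = 6 * k + 6 by ring, show 3 * (k + 1) = 3 * k + 3 by ring,
      f6 (6 * k), f3 (3 * k), f1 k]
    have a1 : (0 : ℚ) < ((6 * k).factorial : ℚ) := by positivity
    have a2 : (0 : ℚ) < ((3 * k).factorial : ℚ) := by positivity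
    have a3 : (0 : ℚ) < (k.factorial : ℚ) := by positivity
    generalize ((6 * k).factorial : ℚ) = x1 at *
    generalize ((3 * k).factorial : ℚ) = x2 at *
    generalize (k.factorial : ℚ) = x3 at *
    push_cast
    have hk : (0 : ℚ) ≤ k := by positivity
    generalize (k : ℚ) = t at *
    rw [← sub_pos]
    have e : 32768 * ((154 * t + 15) * (x1 / (x2 * x3 ^ 3))) -
        (154 * (t + 1) + 15) * ((6 * t + 6) * (6 * t + 5) * (6 * t + 4) * (6 * t + 3) *
          (6 * t + 2) * (6 * t + 1) * x1 /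
          ((3 * t + 3) * (3 * t + 2) * (3 * t + 1) * x2 * ((t + 1) * x3) ^ 3))
        = (x1 / (x2 * x3 ^ 3)) * (32768 * (154 * t + 15) * (t + 1) ^ 3 -
          (154 * t + 169) * (24 * (6 * t + 5) * (2 * t + 1) * (6 * t + 1))) / (t + 1) ^ 3 := by
      have b1 : t + 1 ≠ 0 := by positivity
      have b2 : 3 * t + 1 ≠ 0 := by positivity
      have b3 : 3 * t + 2 ≠ 0 := by positivity
      have b4 : 3 * t + 3 ≠ 0 := by positivity
      field_simp
      ring
    rw [e]
    have h5 : 0 < 32768 * (154 * t + 15) * (t + 1) ^ 3 -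
          (154 * t + 169) * (24 * (6 * t + 5) * (2 * t + 1) * (6 * t + 1)) := by
      ring_nf
      positivity
    positivity
  · show ∑ k ∈ range (n + 1), _ = 32768 * ∑ k ∈ range n, _ + _
    rw [sum_range_succ, mul_sum]
    congr 1
    · refine sum_congr rfl fun k hk => ?_
      have := mem_range.1 hk
      rw [show n + 1 - 1 - k = (n - 1 - k) + 1 by omega, pow_succ]
      ring
    · rw [show n + 1 - 1 - n = 0 by omega, pow_zero, one_mul]

theorem a_pos (n : ℕ) : 0 < (-1) ^ n * a (n + 1) := by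
  have h := sum_pos n
  have e : (-1) ^ n * a (n + 1) = (∑ k ∈ range (n + 1), (32768 : ℚ) ^ (n - k) *
    ((-1) ^ k * ((154 * (k : ℚ) + 15) * c k))) / (10 * ((n + 1 : ℕ) : ℚ) *
      (2 * ((n + 1 : ℕ) : ℚ) + 1) * ((2 * (n + 1)).choose (n + 1) : ℚ)) := by
    unfold a
    rw [← mul_div_assoc]
    congr 1
    unfold S
    rw [mul_sum]
    refine sum_congr rfl fun k hk => ?_
    obtain ⟨j, rfl⟩ : ∃ j, n = k + j := ⟨n - k, by have := mem_range.1 hk; omega⟩
    rw [show k + j + 1 - 1 - k = j by omega, show k + j - k = j by omega,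
      show (-32768 : ℚ) = (-1) * 32768 by norm_num, mul_pow, pow_add]
    have h1 : ((-1 : ℚ) ^ j) * (-1) ^ j = 1 := by rw [← mul_pow]; norm_num
    linear_combination ((-1) ^ k * 32768 ^ j * (154 * (k : ℚ) + 15) * c k) * h1
  rw [e]
  have h1 : 0 < (2 * (n + 1)).choose (n + 1) := Nat.choose_pos (by omega)
  positivity

theorem result (n : ℕ) (hn : 1 < n) :
    ((∀ m : ℕ, 1 ≤ m → 2 * n + 1 ≠ 5 ^ m) → ∃ z : ℤ, 0 < z ∧ (-1) ^ (n - 1) * a n = z) ∧
    ((∃ m : ℕ, 1 ≤ m ∧ 2 * n + 1 = 5 ^ m) → ∃ z : ℤ, 5 * a n = z ∧ ¬ (5 : ℤ) ∣ z) := by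
  have hex : ∀ n k, ∃ z : ℤ, k < n → V n k = z := by
    intro n k
    by_cases h : k < n
    · obtain ⟨z, hz⟩ := V_int n k h
      exact ⟨z, fun _ => hz⟩
    · exact ⟨0, fun h' => absurd h' h⟩
  choose Z hZ using hex
  choose e he using exists_e
  let Bz : ℕ → ℤ := fun n => -∑ k ∈ range n, 64 ^ k * Z n k
  have hBz : ∀ n, 1 ≤ n → (Bz n : ℚ) = 40 * a n := by
    intro n hn
    rw [a_eq n hn]
    show ((-∑ k ∈ range n, 64 ^ k * Z n k : ℤ) : ℚ) = _
    push_cast
    congr 1
    exact sum_congr rfl fun k hk => by rw [hZ n k (mem_range.1 hk)]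
  have hB5 : ∀ n, ((Bz n : ℤ) : ZMod 5) = -∑ k ∈ range n, (-1) ^ k * (Z n k : ZMod 5) := by
    intro n
    show ((-∑ k ∈ range n, 64 ^ k * Z n k : ℤ) : ZMod 5) = _
    push_cast
    rw [show (64 : ZMod 5) = -1 by decide]
  have hmain := five_main e he (fun n => ((Bz n : ℤ) : ZMod 5)) (fun m => by
      show ((Bz (5 * m) : ℤ) : ZMod 5) = _ * ((Bz m : ℤ) : ZMod 5)
      rw [hB5, hB5, block_sum Z hZ m]
      ring) (by
      show ((Bz 1 : ℤ) : ZMod 5) = 0
      have h1 : (Bz 1 : ℚ) = ((10 : ℤ) : ℚ) := by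
        rw [hBz 1 le_rfl]
        unfold a S c
        norm_num [Nat.factorial, Nat.choose]
      have h2 : Bz 1 = 10 := by exact_mod_cast h1
      rw [h2]
      decide) (fun n hn => by
      show 2 * (2 * (n : ZMod 5) + 3) * ((Bz (n + 1) : ℤ) : ZMod 5)
        = 2 * n * ((Bz n : ℤ) : ZMod 5) + n * e n
      have h1 := a_rec n (e n) hn (he n)
      rw [← hBz n hn, ← hBz (n + 1) (by omega)] at h1
      have h2 : 2 * (2 * (n : ℤ) + 3) * Bz (n + 1) = -32768 * n * Bz n + 4 * (154 * n + 15) * e n := by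
        exact_mod_cast h1
      have h3 := congrArg (fun x : ℤ => (x : ZMod 5)) h2
      push_cast at h3
      rw [h3]
      have e1 : (-32768 : ZMod 5) = 2 := by decide
      have e2 : (154 : ZMod 5) = 4 := by decide
      have e3 : (15 : ZMod 5) = 0 := by decide
      have e4 : (4 * 4 : ZMod 5) = 1 := by decide
      rw [e1, e2, e3]
      linear_combination (n * (e n : ZMod 5)) * e4)
  obtain ⟨hm1, hm2⟩ := hmain
  obtain ⟨m, rfl⟩ : ∃ m, n = m + 1 := ⟨n - 1, by omega⟩
  obtain ⟨b, hb, w, hw⟩ := a_two m (by omega)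
  have h8 : (b : ℤ) * Bz (m + 1) = 40 * w := by
    have : (b : ℚ) * (Bz (m + 1) : ℚ) = 40 * w := by rw [hBz _ (by omega), ← hw]; ring
    exact_mod_cast this
  have h9 : (8 : ℤ) ∣ Bz (m + 1) := by
    have hcop : IsCoprime (8 : ℤ) (b : ℤ) := by
      rw [Int.isCoprime_iff_gcd_eq_one]
      have : Nat.Coprime 8 b := by
        rw [show (8 : ℕ) = 2 ^ 3 by norm_num]
        exact Nat.Coprime.pow_left 3 ((Nat.Prime.coprime_iff_not_dvd Nat.prime_two).2 hb)
      exact_mod_cast this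
    exact hcop.dvd_of_dvd_mul_left ⟨5 * w, by rw [h8]; ring⟩
  obtain ⟨y, hy⟩ := h9
  have hy5 : 5 * a (m + 1) = y := by
    have h10 := hBz (m + 1) (by omega)
    rw [hy] at h10
    push_cast at h10
    linarith
  constructor
  · intro h
    have h11 : ((Bz (m + 1) : ℤ) : ZMod 5) = 0 := by
      by_cases hmod : (m + 1) % 5 = 2
      · have h12 := hm2 (m + 1) hmod
        have h13 : ((e (m + 1) : ℕ) : ZMod 5) = 0 := by
          rw [ZMod.natCast_eq_zero_iff]
          refine five_dvd_e (m + 1) _ (by omega) (fun j hj => ?_) (he _)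
          rcases Nat.eq_zero_or_pos j with rfl | hj0
          · simp at hj
          · exact h j hj0 hj
        rw [h13, mul_zero] at h12
        exact h12
      · exact hm1 (m + 1) (by omega) hmod
    have h14 : (5 : ℤ) ∣ Bz (m + 1) := (ZMod.intCast_zmod_eq_zero_iff_dvd _ 5).1 h11
    obtain ⟨u, hu⟩ : (5 : ℤ) ∣ y := by omega
    have hau : a (m + 1) = u := by
      rw [hu] at hy5
      push_cast at hy5
      linarith
    have hpos := a_pos m
    rw [hau] at hpos
    refine ⟨(-1) ^ m * u, by exact_mod_cast hpos, ?_⟩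
    rw [hau, Nat.add_sub_cancel]
    push_cast
    ring
  · rintro ⟨j, hj0, hj⟩
    refine ⟨y, hy5, fun h => ?_⟩
    have hmod : (m + 1) % 5 = 2 := by
      obtain ⟨i, rfl⟩ : ∃ i, j = i + 1 := ⟨j - 1, by omega⟩
      rw [pow_succ] at hj
      omega
    have h12 := hm2 (m + 1) hmod
    have h14 : (5 : ℤ) ∣ Bz (m + 1) := by rw [hy]; exact Dvd.dvd.mul_left h 8
    have h15 : ((Bz (m + 1) : ℤ) : ZMod 5) = 0 := (ZMod.intCast_zmod_eq_zero_iff_dvd _ 5).2 h14
    have h16 : ((e (m + 1) : ℕ) : ZMod 5) = 0 := by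
      have h17 : ((Bz (m + 1) : ℤ) : ZMod 5) = 2 * (e (m + 1) : ZMod 5) := h12
      rw [h15] at h17
      have h18 : (3 * 2 : ZMod 5) = 1 := by decide
      linear_combination (-3) * h17 - (e (m + 1) : ZMod 5) * h18
    rw [ZMod.natCast_eq_zero_iff] at h16
    exact not_five_dvd_e (m + 1) _ j hj (he _) h16

end Pool.Agent.Results.MP_1a3e71_nt.Integrality
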